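import Mathlib
import Pool.Agent.H.MP_a891d2_an.Kan

set_option autoImplicit false
open MeasureTheory Set Filter Topology

namespace Pool.Agent.Results.MP_a891d2_an.Exists

/-- the 2-torus -/
abbrev T2 := UnitAddCircle × UnitAddCircle

/-- the covering map `ℝ² → 𝕋²` -/
def proj (z : ℝ × ℝ) : T2 := ((z.1 : UnitAddCircle), (z.2 : UnitAddCircle))

/-- the conorm -/
noncomputable def conorm (A : ℝ × ℝ →L[ℝ] ℝ × ℝ) : ℝ := ⨅ v : {v : ℝ × ℝ // ‖v‖ = 1}, ‖A v‖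

/-- the shift of the natural extension; `x n` is the point at time `-n` -/
def hat (f : T2 → T2) (x : ℕ → T2) : ℕ → T2
  | 0 => f (x 0)
  | n + 1 => x n

/-- `ν` is the lift of `μ` to the natural extension -/
def IsLift (f : T2 → T2) (μ : Measure T2) (ν : Measure (ℕ → T2)) : Prop :=
  IsProbabilityMeasure ν ∧ (∀ᵐ x ∂ν, ∀ n, f (x (n + 1)) = x n) ∧ MeasurePreserving (hat f) ν ν ∧
    ν.map (fun x => x 0) = μ

/-- `Γ` on `(0,1)` is a local unstable curve: backward orbits over an embedded `C¹` arc `γ`,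
uniformly exponentially asymptotic in the past -/
def IsUnstable (f : T2 → T2) (Γ : ℝ → ℕ → T2) (γ : ℝ → ℝ × ℝ) : Prop :=
  ContDiff ℝ 1 γ ∧ (∀ t, deriv γ t ≠ 0) ∧ InjOn (proj ∘ γ) (Ioo 0 1) ∧
    (∀ t, Γ t 0 = proj (γ t)) ∧ (∀ t n, f (Γ t (n + 1)) = Γ t n) ∧
    ∃ C l : ℝ, 0 < l ∧ l < 1 ∧ ∀ s ∈ Ioo (0 : ℝ) 1, ∀ t ∈ Ioo (0 : ℝ) 1, ∀ n,
      dist (Γ s n) (Γ t n) ≤ C * l ^ n

/-- the conditional measures `κ ω` of `ν` for a measurable partition `ζ` live on local unstable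
curves inside the atoms and project to measures absolutely continuous for arc length -/
def IsSRB (f : T2 → T2) (ν : Measure (ℕ → T2)) : Prop :=
  ∃ (ζ : (ℕ → T2) → ℕ → Bool) (κ : ProbabilityTheory.Kernel (ℕ → Bool) (ℕ → T2)),
    Measurable ζ ∧ ProbabilityTheory.IsMarkovKernel κ ∧ ν = (ν.map ζ).bind κ ∧
    ∀ᵐ ω ∂ν.map ζ, ∃ Γ γ, IsUnstable f Γ γ ∧ (∀ t ∈ Ioo (0 : ℝ) 1, ζ (Γ t) = ω) ∧
      (∀ᵐ x ∂κ ω, x ∈ Γ '' Ioo 0 1) ∧ (κ ω).map (fun x => x 0) ≪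
        ((volume.restrict (Ioo 0 1)).withDensity fun t => ‖deriv γ t‖ₑ).map (proj ∘ γ)

theorem result : ∃ (f : T2 → T2) (F : ℝ × ℝ → ℝ × ℝ) (μ : Measure T2) (ν : Measure (ℕ → T2)),
    ContDiff ℝ (⊤ : ℕ∞) F ∧ (∀ z, f (proj z) = proj (F z)) ∧ (∀ z, (fderiv ℝ F z).det ≠ 0) ∧
    ¬ Function.Injective f ∧
    (∀ ρ : T2 → ℝ, Continuous ρ → (∀ p, 0 < ρ p) →
      ¬ MeasurePreserving f (volume.withDensity fun p => ENNReal.ofReal (ρ p))
        (volume.withDensity fun p => ENNReal.ofReal (ρ p))) ∧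
    IsProbabilityMeasure μ ∧ Ergodic f μ ∧
    (∃ a b : ℝ, a < 0 ∧ 0 < b ∧ ∀ᵐ p ∂μ, ∀ z, proj z = p →
      Tendsto (fun n : ℕ => (1 / (n : ℝ)) * Real.log (conorm (fderiv ℝ F^[n] z))) atTop (𝓝 a) ∧
      Tendsto (fun n : ℕ => (1 / (n : ℝ)) * Real.log ‖fderiv ℝ F^[n] z‖) atTop (𝓝 b)) ∧
    IsLift f μ ν ∧ IsSRB f ν ∧
    ¬ ∃ C l : ℝ, 0 < l ∧ l < 1 ∧ ∀ x ∈ ν.support, ∀ z, proj z = x 0 → ∃ e u : ℝ × ℝ,
      ‖e‖ = 1 ∧ ‖u‖ = 1 ∧ ∀ n, ‖fderiv ℝ F^[n] z e‖ ≤ C * l ^ n * ‖fderiv ℝ F^[n] z u‖ := by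
  have hh : hat H.Kan.f = H.Kan.fh := by
    ext1 x; ext1 n; cases n <;> rfl
  refine ⟨H.Kan.f, H.Kan.F, H.Kan.μ, H.Kan.ν, H.Kan.F_sm, H.Kan.f_π, fun z => ?_, H.Kan.not_inj,
    H.Kan.dissip, Measure.isProbabilityMeasure_map measurable_prodMk_right.aemeasurable, H.Kan.erg,
    ⟨Real.log 2 - 1, Real.log 2, by linarith [Real.log_two_lt_d9], Real.log_pos one_lt_two,
      H.Kan.lyap⟩, ⟨inferInstance, H.Kan.ν_orb, hh ▸ H.Kan.ν_inv, H.Kan.ν_proj⟩,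
    ⟨H.Kan.ζ, H.Kan.κ, H.Kan.ζ_meas, inferInstance, H.Kan.ν_bind, Eventually.of_forall fun ω =>
      ⟨H.Kan.Γ ω, fun t => (t, 0), ?_, fun t ht => H.Kan.ζ_Γ ω (Ioo_subset_Ico_self ht), ?_, ?_⟩⟩,
    ?_⟩
  · rw [(H.Kan.hF z).fderiv, H.Flex.M_det]
    exact (mul_pos two_pos (H.Kan.d_pos _ _)).ne'
  · have hd : ∀ t : ℝ, deriv (fun t : ℝ => (t, (0 : ℝ))) t = (1, 0) := fun t =>
      ((hasDerivAt_id t).prodMk (hasDerivAt_const t 0)).deriv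
    refine ⟨by fun_prop, fun t => by simp [hd], fun s hs t ht h => ?_, fun t => rfl,
      H.Kan.Γ_orb ω, 1, 1 / 2, by norm_num, by norm_num, fun s hs t ht n => ?_⟩
    · have := congrArg (fun z => H.Flex.rep z.1) h
      simpa only [Function.comp, proj, H.Flex.rep_id (Ioo_subset_Ico_self hs),
        H.Flex.rep_id (Ioo_subset_Ico_self ht)] using this
    · refine max_le ((H.Kan.dist_coe _ _).trans ?_) (by simp [H.Kan.Γ, H.Flex.π])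
      simp only
      rw [H.Kan.X_sub, abs_mul, abs_of_pos (by positivity), mul_comm]
      refine mul_le_mul_of_nonneg_right ?_ (by positivity)
      rw [abs_le]; constructor <;> linarith [hs.1, hs.2, ht.1, ht.2]
  · have m0 : Measurable fun x : ℕ → T2 => H.Flex.rep (x 0).1 :=
      H.Flex.rep_meas.comp (measurable_fst.comp (measurable_pi_apply 0))
    have h1 : ∀ᵐ t ∂H.Kan.L, t ∈ Ioo (0 : ℝ) 1 := by
      rw [H.Kan.L, ← restrict_Ioo_eq_restrict_Ico]; exact ae_restrict_mem measurableSet_Ioo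
    have h2 : ∀ t ∈ Ioo (0 : ℝ) 1, H.Flex.rep (H.Kan.Γ ω t 0).1 = t := fun t ht =>
      H.Flex.rep_id (Ioo_subset_Ico_self ht)
    have h3 : ∀ᵐ x ∂H.Kan.κ ω, H.Flex.rep (x 0).1 ∈ Ioo (0 : ℝ) 1 :=
      (ae_map_iff (H.Kan.mΓ ω).aemeasurable (m0 measurableSet_Ioo)).2 (by
        filter_upwards [h1] with t ht
        rwa [h2 t ht])
    have h4 : ∀ᵐ x ∂H.Kan.κ ω, ∀ n, H.Kan.Γ ω (H.Flex.rep (x 0).1) n = x n :=
      ae_all_iff.2 fun n => (ae_map_iff (H.Kan.mΓ ω).aemeasurable (measurableSet_eq_fun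
        ((measurable_pi_apply n).comp ((H.Kan.mΓ ω).comp m0)) (measurable_pi_apply n))).2 (by
          filter_upwards [h1] with t ht
          simp only [Function.comp, h2 t ht])
    filter_upwards [h3, h4] with x a b
    exact ⟨_, a, funext b⟩
  · have hd : ∀ t : ℝ, ‖deriv (fun t : ℝ => (t, (0 : ℝ))) t‖ₑ = 1 := fun t => by
      rw [((hasDerivAt_id' t).prodMk (hasDerivAt_const t 0)).deriv, ← ofReal_norm_eq_enorm]
      simp [Prod.norm_def]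
    simp only [hd]
    rw [show (fun _ : ℝ => (1 : ENNReal)) = 1 from rfl, withDensity_one,
      show H.Kan.κ ω = H.Kan.L.map (H.Kan.Γ ω) from rfl,
      Measure.map_map (measurable_pi_apply 0) (H.Kan.mΓ ω), H.Kan.L, restrict_Ioo_eq_restrict_Ico]
    exact Measure.AbsolutelyContinuous.rfl
  · rintro ⟨C, l, l0, l1, h⟩
    obtain ⟨e, u, he, hu, h1⟩ := h _ H.Kan.supp0 (((0 : ℤ) : ℝ), ((0 : ℤ) : ℝ))
      (by simp [proj, Prod.mk_zero_zero])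
    have h2 : ∀ n : ℕ, 1 ≤ C * l ^ n := by
      intro n
      have h3 := h1 n
      have h4 : ∀ v : ℝ × ℝ, ‖v‖ = 1 → ‖H.Flex.M (2 ^ n) 0 (2 ^ n) v‖ = 2 ^ n := fun v hv => by
        have : H.Flex.M (2 ^ n) 0 (2 ^ n) v = (2 ^ n : ℝ) • v := by
          rw [H.Flex.M_apply]; ext <;> simp
        rw [this, norm_smul, hv]; simp
      rw [(H.Kan.Fn0 n 0 0).fderiv, h4 e he, h4 u hu] at h3
      exact le_of_mul_le_mul_right (by linarith) (show (0 : ℝ) < 2 ^ n by positivity)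
    have h5 := ge_of_tendsto' ((tendsto_pow_atTop_nhds_zero_of_lt_one l0.le l1).const_mul C) h2
    norm_num at h5

end Pool.Agent.Results.MP_a891d2_an.Exists
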